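import Pool.Agent.H49.Preim

set_option autoImplicit false

namespace Pool.Agent.Results.MP_2d1f13_nt.Counterexample

open H49.Preim IntermediateField

/-- Q1 is false for `N = 2`, `d = 2`, `Λ = 𝔸¹`: the family `f_t = [x² + (t - t²) z² : y² : z²]` is
maximal varying (each conjugacy class contains finitely many `f_t`), and with the marked point
`a_t = [t : t : 1]` property `(∗)` fails for every proper closed `V`. -/
theorem result :
    (∀ s : K, {t : K | Conj t s}.Finite) ∧
    ∀ V : Set (K × P2), ZClosed V → V ≠ Set.univ →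
      ∃ D : ℕ, 1 ≤ D ∧ ∀ C : ℕ, ∃ t : K, Module.finrank ℚ ℚ⟮t⟯ ≤ D ∧
        (C : ℕ∞) < {x | x ∈ preim t D ∧ (t, x) ∉ V}.encard := by
  refine ⟨fun s => ?_, main⟩
  refine (Set.toFinite ({0, 1, s, 1 - s} : Set K)).subset fun t ht => ?_
  simpa using conj_fin t s ht

end Pool.Agent.Results.MP_2d1f13_nt.Counterexample
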